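import Mathlib
import Pool.Agent.V11187.AreaE

open MeasureTheory Set
open scoped MeasureTheory ENNReal

namespace Pool.Agent.Results.MP_8228af_gt.Truncated

/-- Euclidean 3-space. -/
abbrev E3 : Type := EuclideanSpace ℝ (Fin 3)

/-- An origin-symmetric convex body: compact, convex, nonempty interior, `C = -C`. -/
def IsSymBody (C : Set E3) : Prop :=
  IsCompact C ∧ Convex ℝ C ∧ (interior C).Nonempty ∧ ∀ x ∈ C, -x ∈ C

/-- Surface area: the 2-dimensional Hausdorff measure of the boundary. -/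
noncomputable def surf (C : Set E3) : ℝ≥0∞ := μH[2] (frontier C)

/-- There are origin-symmetric convex bodies `C₁, C₂` in `ℝ³` such that, for every nonsingular
affine map `A`, the surface area of `A(C₁)` is at most that of `A(C₂)`, but the volume of `C₁`
is larger than the volume of `C₂`. -/
theorem result : ∃ C₁ C₂ : Set E3, IsSymBody C₁ ∧ IsSymBody C₂ ∧
    (∀ A : E3 ≃ᵃ[ℝ] E3, surf (A '' C₁) ≤ surf (A '' C₂)) ∧ volume C₂ < volume C₁ := by
  obtain ⟨C₁, C₂, h1, h2, h3, h4, h5, h6⟩ := Pool.Agent.V11187.AreaE.main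
  exact ⟨C₁, C₂, ⟨C₁.isCompact, C₁.convex, h1, h3⟩, ⟨C₂.isCompact, C₂.convex, h2, h4⟩, h5, h6⟩

end Pool.Agent.Results.MP_8228af_gt.Truncated
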